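import Mathlib
import Pool.Agent.Lib.MP_623d7d_al.Main

set_option autoImplicit false

open Filter Topology Pool.Agent.Lib.MP_623d7d_al

namespace Pool.Agent.Results.MP_623d7d_al.LimitNotOne

/-- For all `m ∣ ℓ` with `ℓ ≥ 4 m`, the dimension of the diagonal coinvariant ring of `G(ℓ,m,n)`
is at least `(1 + ε) (ℓ (n - 1) + 2 ℓ / m - 1) ^ n` for all `n ≥ 2`, with an explicit `ε > 0`
depending on `ℓ, m` only; so the ratio does not tend to `1`. -/
theorem result (l m : ℕ) (hm : 0 < m) (hml : m ∣ l) (h4 : 4 * m ≤ l) :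
    (∀ n : ℕ, 2 ≤ n →
      (1 + Real.exp (-4) * ((l : ℝ) / m - 3) ^ 2 / (4 * (l : ℝ) ^ 2))
        * ((l : ℝ) * ((n : ℝ) - 1) + 2 * ((l : ℝ) / m) - 1) ^ n ≤ (coinvDim (G l m n) : ℝ)) ∧
    ¬ Tendsto (fun n : ℕ => (coinvDim (G l m n) : ℝ) /
        ((l : ℝ) * ((n : ℝ) - 1) + 2 * ((l : ℝ) / m) - 1) ^ n) atTop (𝓝 1) := by
  have hc : ((l / m : ℕ) : ℝ) = (l : ℝ) / m :=
    Nat.cast_div hml (by exact_mod_cast hm.ne')
  refine ⟨fun n hn => ?_, ?_⟩
  · rw [← hc]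
    have := main l m n hm hml h4 hn
    rw [← hc] at this
    exact this
  · exact not_tendsto_of_bound l m hm hml h4 (fun n => coinvDim (G l m n))
      (fun n hn => main l m n hm hml h4 hn)

end Pool.Agent.Results.MP_623d7d_al.LimitNotOne
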